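import Pool.Agent.H441R4.EH.Least2

/-!
The least prime `p(d, a)` for almost all moduli `d`: for every `N`, at most `d² (log d)^B / N`
reduced classes `a` modulo `d` have `p(d, a) > N`.
-/

set_option autoImplicit false

namespace Pool.Agent.Results.MP_42948a_nt.FewClassesAlmostAllModuli

open Finset

/-- `p(d, a)`: the least prime of the form `a + k d` with `k ≥ 0` -/
noncomputable def leastPrime (d a : ℕ) : ℕ := sInf {p : ℕ | p.Prime ∧ ∃ k : ℕ, p = a + k * d}

/-- the `a < d` coprime to `d` -/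
def classes (d : ℕ) : Finset ℕ := (range d).filter (fun a => a.Coprime d)

/-- **Few classes with a large least prime, for almost all moduli.** For every `A > 0` there are
`B` and `C` such that for all `D ≥ 2`, for all `d` with `D < d ≤ 2D` outside a set `S` of at most
`C D / (log D)^A` moduli, for every `N ≥ 1`, at most `d² (log d)^B / N` of the classes `a` have
`p(d, a) > N`. -/
theorem result (A : ℝ) (hA : 0 < A) : ∃ B C : ℝ, ∀ D : ℕ, 2 ≤ D →
    ∃ S : Finset ℕ, (S.card : ℝ) ≤ C * (D / Real.log D ^ A) ∧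
      ∀ d ∈ Ioc D (2 * D), d ∉ S → ∀ N : ℕ, 1 ≤ N →
        (((classes d).filter (fun a => N < leastPrime d a)).card : ℝ) ≤
          (d : ℝ) ^ 2 * Real.log d ^ B / N := by
  obtain ⟨B, C, hB, hC, h⟩ := Pool.Agent.H441R4.EH.uniform A hA
  refine ⟨B, C, fun D hD => ?_⟩
  obtain ⟨S, hS, hS2⟩ := h D hD
  refine ⟨S, hS, fun d hd hdS N hN => ?_⟩
  obtain ⟨hL, hlate⟩ := hS2 d hd hdS
  refine le_trans ?_ (hlate N hN)
  have hsub : (classes d).filter (fun a => N < leastPrime d a) ⊆
      Pool.Agent.H441R4.EH.late N d := by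
    intro a ha
    unfold classes at ha
    rw [mem_filter, mem_filter, mem_range] at ha
    rw [Pool.Agent.H441R4.EH.mem_late]
    refine ⟨ha.1.1, ha.1.2, fun p k hp hpk => ?_⟩
    exact lt_of_lt_of_le ha.2 (Nat.sInf_le ⟨hp, k, hpk⟩)
  exact_mod_cast card_le_card hsub

end Pool.Agent.Results.MP_42948a_nt.FewClassesAlmostAllModuli
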